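import Pool.Agent.Q322.CD.All2
import Pool.Agent.Q322.CD.Inj
import Pool.Agent.Q322.CD.Main
import Pool.Agent.Q322.CD.Reach2
import Pool.Agent.Q322.CD.TaskAdj
import Pool.Agent.Q322.CD.TaskArith
import Pool.Agent.Q322.CD.TaskBwd
import Pool.Agent.Q322.CD.TaskChain
import Pool.Agent.Q322.CD.TaskFwd
import Pool.Agent.Q322.CD.TaskHeavy
import Pool.Agent.Q322.CD.TaskIneq
import Pool.Agent.Q322.CD.TaskLen
import Pool.Agent.Q322.CD.TaskOwner
import Pool.Agent.Q322.CD.TaskPigeon
import Pool.Agent.Q322.CD.TaskPoly
import Pool.Agent.Q322.CD.TaskPrv
import Pool.Agent.Q322.CD.TaskSize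
import Pool.Agent.Q322.CD.TaskTransfer

/-!
# Edge deletion to components of bounded size is W[1]-hard in the number of edges

Reduction from Clique: a `k × k` torus of crossings of flows. The nodes are stars with many leaves, joined by
`3 k²` paths with pendant vertices; with `3 k²` deletions every path is cut exactly once, at an allowed position
(a number), and the bound for the sizes of the components forces the conservation of the flow at every node.
A flow `N w_i` runs along row `i`, a flow `w_j` along column `j`; the allowed positions at the crossing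
`(i, j)` check that `w_i` and `w_j` are adjacent (equal for `i = j`).
-/

namespace Pool.Agent.Results.MP_613513_lc.SmallComponentsW1

open Pool.Agent.NPC Pool.Agent.H633R2 Pool.Agent.Q322.CD

/-- `T_{h+1}`-Free Edge Deletion, parameterized by the number `k` of deleted edges (`h` is part of the input), is
W[1]-hard; hence if it were fixed-parameter tractable, then all problems in W[1] would be. -/
theorem result :
    W1Hard (fun x : List (List Bool) × ℕ × ℕ => x.2.1) EdgeDel ∧
    (IsFpt (fun x : List (List Bool) × ℕ × ℕ => x.2.1) EdgeDel →
      ∀ (α : Type) [TEnc α] (κ : α → ℕ) (P : α → Prop), InW1 κ P → IsFpt κ P) := by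
  have w := w1_of (inst_iff_of taskTransfer (taskAll2 taskPrv taskAdj)
    (taskFwd taskPrv TaskLen.main taskAdj taskOwner TaskSize.main)
    (taskBwd taskPrv TaskLen.main taskAdj TaskInj_proof taskReach2 taskChain taskHeavy taskPigeon taskIneq
      taskArith)) taskPoly
  exact ⟨w, fun h _ _ _ _ hP => w.collapse h hP⟩

end Pool.Agent.Results.MP_613513_lc.SmallComponentsW1
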